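import Pool.Agent.Work.MP_60c97f_nt.Fin
import Pool.Agent.Work.MP_60c97f_nt.Zero

/-!
# Orbits modulo `p²` on Markoff-type surfaces: almost all parameters

Let `p ≥ 5` and let `D` in `Z/p²` be divisible by `p` or a non-square modulo `p`. Every orbit in `X_D^*(Z/p²)` has
cardinality divisible by `p²`, except possibly for one lift `D` of each residue class modulo `p`, the one with
`T_p(D - 2) = D - 2` (`T_p` the Dickson polynomial), and for at most `C_ε p^ε` further parameters `D`.
-/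

set_option autoImplicit false

namespace Pool.Agent.Results.MP_60c97f_nt.AlmostAllParameters

open Pool.Agent.Work.MP_60c97f_nt

/-- For every `ε > 0` there is `C` such that for all primes `p ≥ 5`: each residue class modulo `p`
contains exactly one special parameter `D ∈ Z/p²`, i.e. with `T_p(D - 2) = D - 2`, `T_p` the Dickson
polynomial `T_p(t + 1/t) = t^p + t^(-p)`; and there is a set `E` of at most `C p ^ ε` parameters such
that for all `D ∉ E` which are not special and are divisible by `p` or non-squares modulo `p`, all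
subsets of `X_D^*(Z/p²)` stable under the three Vieta involutions, in particular all orbits of
`Aut (X_D^*)`, have cardinality divisible by `p²`. -/
theorem result (ε : ℝ) (hε : 0 < ε) : ∃ C : ℝ, ∀ (p : ℕ) [Fact p.Prime], 5 ≤ p →
    (∀ a : ZMod p, ∃! D : ZMod (p ^ 2), ZMod.castHom (dvd_pow_self p two_ne_zero) (ZMod p) D = a ∧
      (Polynomial.dickson 1 (1 : ZMod (p ^ 2)) p).eval (D - 2) = D - 2) ∧
    ∃ E : Set (ZMod (p ^ 2)), (E.ncard : ℝ) ≤ C * (p : ℝ) ^ ε ∧
      ∀ D ∉ E, (Polynomial.dickson 1 (1 : ZMod (p ^ 2)) p).eval (D - 2) ≠ D - 2 →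
        (p : ZMod (p ^ 2)) ∣ D ∨
          ¬ IsSquare (ZMod.castHom (dvd_pow_self p two_ne_zero) (ZMod p) D) →
        (∀ O : Set (ZMod (p ^ 2) × ZMod (p ^ 2) × ZMod (p ^ 2)), O ⊆ XStar D → Stable O →
          p ^ 2 ∣ O.ncard) ∧
        ∀ P ∈ XStar D, p ^ 2 ∣ (orb P).ncard := by
  obtain ⟨A, hA1, hA⟩ := exists_card_divisors_le (ε / 6) (by linarith)
  refine ⟨220000 * A ^ 3, ?_⟩
  intro p _ hp
  have hpp : p.Prime := Fact.out
  have : NeZero (p ^ 2) := ⟨pow_ne_zero 2 hpp.ne_zero⟩
  constructor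
  · intro a
    obtain ⟨D₀, hD₀⟩ := red_surj (p := p) a
    refine ⟨dk (D₀ - 2) 1 p + 2, ⟨?_, ?_⟩, ?_⟩
    · change red p (dk (D₀ - 2) 1 p + 2) = a
      rw [map_add, red_dk, map_sub, hD₀]
      ring
    · rw [dickson_eval, add_sub_cancel_right, dk_dk]
    · rintro D ⟨h1, h2⟩
      change red p D = a at h1
      rw [dickson_eval] at h2
      have h4 : dk (D - 2) 1 p = dk (D₀ - 2) 1 p := dk_congr' (by rw [map_sub, map_sub, h1, hD₀])
      rw [← h4, h2]
      ring
  · refine ⟨BadAll p, ?_, ?_⟩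
    · refine (card_badAll hp).trans ?_
      have hp1 : (1 : ℝ) ≤ p := by exact_mod_cast hpp.one_le
      have hp0 : (0 : ℝ) < p := by linarith
      have h4 : 4 ≤ p ^ 2 := by nlinarith
      have h1 := hA (p ^ 2 - 1) (by omega)
      have h2 : (((p ^ 2 - 1 : ℕ) : ℝ)) ^ (ε / 6) ≤ (p : ℝ) ^ (ε / 3) := by
        have h3 : (((p ^ 2 - 1 : ℕ) : ℝ)) ≤ (p : ℝ) ^ 2 := by
          have : p ^ 2 - 1 ≤ p ^ 2 := Nat.sub_le _ _
          exact_mod_cast this
        refine (Real.rpow_le_rpow (by positivity) h3 (by linarith)).trans ?_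
        rw [← Real.rpow_natCast, ← Real.rpow_mul hp0.le]
        apply le_of_eq
        congr 1
        push_cast
        ring
      have h5 : (((p ^ 2 - 1).divisors.card : ℕ) : ℝ) ≤ A * (p : ℝ) ^ (ε / 3) :=
        h1.trans (mul_le_mul_of_nonneg_left h2 (by linarith))
      have h6 : ((p : ℝ) ^ (ε / 3)) ^ 3 = (p : ℝ) ^ ε := by
        rw [← Real.rpow_natCast, ← Real.rpow_mul hp0.le]
        congr 1
        push_cast
        ring
      have h7 : (((p ^ 2 - 1).divisors.card : ℕ) : ℝ) ^ 3 ≤ (A * (p : ℝ) ^ (ε / 3)) ^ 3 :=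
        pow_le_pow_left₀ (by positivity) h5 3
      rw [mul_pow, h6] at h7
      calc 220000 * (((p ^ 2 - 1).divisors.card : ℕ) : ℝ) ^ 3 ≤ 220000 * (A ^ 3 * (p : ℝ) ^ ε) :=
          mul_le_mul_of_nonneg_left h7 (by norm_num)
        _ = 220000 * A ^ 3 * (p : ℝ) ^ ε := by ring
    · intro D hD ht hDs
      have main : ∀ O : Set (ZMod (p ^ 2) × ZMod (p ^ 2) × ZMod (p ^ 2)), O ⊆ XStar D → Stable O →
          p ^ 2 ∣ O.ncard := by
        intro O hX hO
        rcases hDs with h0 | hs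
        · exact sq_dvd_ncard_zero hp ((red_eq_zero_iff D).2 h0) hO hX
        · rw [dickson_eval] at ht
          exact sq_dvd_of_not_badAll hp hs ht hD hO hX
      exact ⟨main, fun P hP => main _ (orb_subset hP) (orb_stable P)⟩

end Pool.Agent.Results.MP_60c97f_nt.AlmostAllParameters
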