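import Pool.Agent.Work.MP_60c97f_nt.Pts
import Pool.Agent.Work.MP_60c97f_nt.Zero

/-!
# Orbits modulo `p²` on Markoff-type surfaces: almost all points

For all primes `p ≥ 5` and all `D` in `Z/p²` which are `0` or a non-square modulo `p` all but at most
`C_ε p^(3+ε)` of the points of `X_D^*(Z/p²)` are on orbits of `Aut (X_D^*)` of cardinality divisible by `p²`.
-/

set_option autoImplicit false

namespace Pool.Agent.Results.MP_60c97f_nt.AlmostAllPoints

open Pool.Agent.Work.MP_60c97f_nt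

/-- For every `ε > 0` there is `C` such that for all primes `p ≥ 5` and all `D ∈ Z/p²` which are
divisible by `p` or non-squares modulo `p` the number of points of `X_D^*(Z/p²)` whose
`Aut (X_D^*)`-orbit has cardinality not divisible by `p²` is at most `C p ^ (3 + ε)`. -/
theorem result (ε : ℝ) (hε : 0 < ε) : ∃ C : ℝ, ∀ (p : ℕ) [Fact p.Prime], 5 ≤ p →
    ∀ D : ZMod (p ^ 2), (p : ZMod (p ^ 2)) ∣ D ∨
        ¬ IsSquare (ZMod.castHom (dvd_pow_self p two_ne_zero) (ZMod p) D) →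
      ({P ∈ XStar D | ¬ p ^ 2 ∣ (orb P).ncard}.ncard : ℝ) ≤ C * (p : ℝ) ^ (3 + ε) := by
  obtain ⟨A, hA1, hA⟩ := exists_card_divisors_le (ε / 4) (by linarith)
  refine ⟨220000 * A ^ 2, ?_⟩
  intro p _ hp D hD
  have hpp : p.Prime := Fact.out
  have hp1 : (1 : ℝ) ≤ p := by exact_mod_cast hpp.one_le
  have hp0 : (0 : ℝ) < p := by linarith
  rcases hD with h0 | hs
  · have h1 : {P ∈ XStar D | ¬ p ^ 2 ∣ (orb P).ncard} = ∅ := by
      refine Set.eq_empty_iff_forall_notMem.2 fun P hP => hP.2 ?_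
      exact sq_dvd_ncard_zero hp ((red_eq_zero_iff D).2 h0) (orb_stable P) (orb_subset hP.1)
    rw [h1, Set.ncard_empty, Nat.cast_zero]
    positivity
  · have h1 := card_bad_points hp hs
    have h4 : 4 ≤ p ^ 2 := by nlinarith
    have h2 := hA (p ^ 2 - 1) (by omega)
    have h3 : (((p ^ 2 - 1 : ℕ) : ℝ)) ^ (ε / 4) ≤ (p : ℝ) ^ (ε / 2) := by
      have h3 : (((p ^ 2 - 1 : ℕ) : ℝ)) ≤ (p : ℝ) ^ 2 := by
        have : p ^ 2 - 1 ≤ p ^ 2 := Nat.sub_le _ _
        exact_mod_cast this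
      refine (Real.rpow_le_rpow (by positivity) h3 (by linarith)).trans ?_
      rw [← Real.rpow_natCast, ← Real.rpow_mul hp0.le]
      apply le_of_eq
      congr 1
      push_cast
      ring
    have h5 : (((p ^ 2 - 1).divisors.card : ℕ) : ℝ) ≤ A * (p : ℝ) ^ (ε / 2) :=
      h2.trans (mul_le_mul_of_nonneg_left h3 (by linarith))
    have h6 : ((p : ℝ) ^ (ε / 2)) ^ 2 = (p : ℝ) ^ ε := by
      rw [← Real.rpow_natCast, ← Real.rpow_mul hp0.le]
      congr 1
      push_cast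
      ring
    have h7 : (((p ^ 2 - 1).divisors.card : ℕ) : ℝ) ^ 2 ≤ (A * (p : ℝ) ^ (ε / 2)) ^ 2 :=
      pow_le_pow_left₀ (by positivity) h5 2
    rw [mul_pow, h6] at h7
    have h8 : ({P ∈ XStar D | ¬ p ^ 2 ∣ (orb P).ncard}.ncard : ℝ) ≤
        (p : ℝ) ^ 2 * (220000 * (((p ^ 2 - 1).divisors.card : ℕ) : ℝ) ^ 2 * p) := by
      exact_mod_cast h1
    have h9 : (p : ℝ) ^ (3 + ε) = (p : ℝ) ^ 3 * (p : ℝ) ^ ε := by
      rw [Real.rpow_add hp0]
      congr 1
      exact_mod_cast Real.rpow_natCast (p : ℝ) 3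
    rw [h9]
    refine h8.trans ?_
    calc (p : ℝ) ^ 2 * (220000 * (((p ^ 2 - 1).divisors.card : ℕ) : ℝ) ^ 2 * p) ≤
        (p : ℝ) ^ 2 * (220000 * (A ^ 2 * (p : ℝ) ^ ε) * p) := by gcongr
      _ = 220000 * A ^ 2 * ((p : ℝ) ^ 3 * (p : ℝ) ^ ε) := by ring

end Pool.Agent.Results.MP_60c97f_nt.AlmostAllPoints
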