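import Pool.Agent.Work.MP_60c97f_nt.Zero

/-!
# Orbits modulo `p²` on Markoff-type surfaces with `D` divisible by `p`

Let `p` be an odd prime and `D` in `Z/p²` divisible by `p`. Every orbit of `Aut (X_D^*)` in `X_D^*(Z/p²)`, and
every subset stable under the three Vieta involutions, has cardinality divisible by `p²`.
-/

set_option autoImplicit false

namespace Pool.Agent.Results.MP_60c97f_nt.DivisibleByP

open Pool.Agent.Work.MP_60c97f_nt

private theorem three_eq : ∀ x y z : ZMod 3, x ^ 2 + y ^ 2 + z ^ 2 = x * y * z →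
    x = 0 ∧ y = 0 ∧ z = 0 := by
  decide

private theorem three {D : ZMod (3 ^ 2)} (hD : ((3 : ℕ) : ZMod (3 ^ 2)) ∣ D)
    {P : ZMod (3 ^ 2) × ZMod (3 ^ 2) × ZMod (3 ^ 2)} : P ∉ XStar D := by
  have : Fact (Nat.Prime 3) := ⟨Nat.prime_three⟩
  rintro ⟨h1, h2⟩
  have hD' : red 3 D = 0 := (red_eq_zero_iff D).2 hD
  have h3 : red 3 P.1 ^ 2 + red 3 P.2.1 ^ 2 + red 3 P.2.2 ^ 2 =
      red 3 P.1 * red 3 P.2.1 * red 3 P.2.2 := by
    have := congrArg (red 3) h1
    simpa [hD'] using this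
  obtain ⟨hx, hy, hz⟩ := three_eq _ _ _ h3
  rcases h2 with h2 | h2 | h2 <;> rw [isUnit_iff_red] at h2 <;> apply h2 <;> simp [hx, hy, hz]

/-- Let `p` be an odd prime and `D ∈ Z/p²` divisible by `p`. Then every subset of `X_D^*(Z/p²)` stable
under the three Vieta involutions, in particular every orbit of `Aut (X_D^*)`, has cardinality
divisible by `p²`. -/
theorem result (p : ℕ) [Fact p.Prime] (hp : p ≠ 2) (D : ZMod (p ^ 2))
    (hD : (p : ZMod (p ^ 2)) ∣ D) :
    (∀ O : Set (ZMod (p ^ 2) × ZMod (p ^ 2) × ZMod (p ^ 2)), O ⊆ XStar D → Stable O →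
      p ^ 2 ∣ O.ncard) ∧ ∀ P ∈ XStar D, p ^ 2 ∣ (orb P).ncard := by
  have hpp : p.Prime := Fact.out
  have hD' : red p D = 0 := (red_eq_zero_iff D).2 hD
  have main : ∀ O : Set (ZMod (p ^ 2) × ZMod (p ^ 2) × ZMod (p ^ 2)),
      O ⊆ XStar D → Stable O → p ^ 2 ∣ O.ncard := by
    intro O hX hO
    rcases lt_or_ge p 5 with h5 | h5
    · have h3 : p = 3 := by
        have h2 := hpp.two_le
        have h4 : p ≠ 4 := fun h => by
          rw [h] at hpp
          exact absurd hpp (by norm_num)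
        omega
      subst h3
      have : O = ∅ := Set.eq_empty_iff_forall_notMem.2 fun P hP => three hD (hX hP)
      rw [this, Set.ncard_empty]
      exact dvd_zero _
    · exact sq_dvd_ncard_zero h5 hD' hO hX
  exact ⟨main, fun P hP => main _ (orb_subset hP) (orb_stable P)⟩

end Pool.Agent.Results.MP_60c97f_nt.DivisibleByP
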